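import Pool.Agent.R532.Wa8

/-!
# Sums of `2 k + 1` powers with generic real coefficients reach all large numbers
-/

set_option autoImplicit false

namespace Pool.Agent.Results.MP_efcac8_nt.GenericCoefficients

open MeasureTheory Filter

theorem result (k : ℕ) (hk : 1 ≤ k) :
    (∀ s : ℕ, 3 ≤ s → ∀ᵐ l : Fin s → ℝ, (∀ i, 0 < l i) →
      ∀ ε : ℝ, 0 < ε → ∀ᶠ N : ℝ in atTop, ∃ x : Fin s → ℕ, (∀ i, 0 < x i) ∧
        |∑ i, l i * (x i : ℝ) ^ k - N| ≤ N ^ (1 - (s : ℝ) / (2 * k) + ε)) ∧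
    (∀ s : ℕ, s ≤ k → ∀ l : Fin s → ℝ, (∀ i, 0 < l i) →
      ∃ D : ℝ, 0 < D ∧ ∀ N₀ : ℝ, ∃ N : ℝ, N₀ ≤ N ∧
        ∀ x : Fin s → ℕ, D < |∑ i, l i * (x i : ℝ) ^ k - N|) :=
  ⟨fun s hs => Pool.Agent.R532.Wa.generic_all k s hk hs,
    fun s hs l hl => Pool.Agent.R532.Wa.lower k s hk hs l hl⟩

end Pool.Agent.Results.MP_efcac8_nt.GenericCoefficients
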