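import Mathlib
import Pool.Agent.R500.WC.Def

set_option autoImplicit false

/-!
# `2 k + 1` terms, a sparse set of the `k`-th powers being moved

Let `k ≥ 4` be not a power of two. Only the powers `x ^ k` with `x` in a set `M` are moved (at
random, by multiples of `q`), where `M` may be sparse: about `X ^ κ` of the first `X` integers, with
`κ ≥ 1 / 2`. If the multipliers are at most the `η`-th power of the size, `1 / 2 ≤ η ≤ κ`, then
almost surely every large integer is a sum of exactly `2 k + 1` terms.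
-/

namespace Pool.Agent.Results.MP_efcac8_nt.SparseMoves

open Finset MeasureTheory ProbabilityTheory Filter
open Pool.Agent.R500.WC (Thick MovedOn MS)
open scoped Classical

/-- Every large integer is a sum of exactly `t` terms `b x` with `x ≥ 1`. -/
def Suffices (b : ℕ → ℕ) (t : ℕ) : Prop :=
  ∀ᶠ n : ℕ in atTop, ∃ x : Fin t → ℕ, (∀ i, 0 < x i) ∧ ∑ i, b (x i) = n

lemma log_aux {η : ℝ} (hη : 1 / 2 ≤ η) : Real.log (1 / η) ≤ 7 / 10 := by
  have hη0 : 0 < η := lt_of_lt_of_le (by norm_num) hη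
  have h1 : 1 / η ≤ 2 := by
    rw [div_le_iff₀ hη0]
    linarith
  have h2 := Real.log_le_log (by positivity) h1
  have h3 := Real.log_two_lt_d9
  linarith

lemma terms_aux {k : ℕ} {c η : ℝ} (hk : 4 ≤ k) (hη : 1 / 2 ≤ η) (hc : c ≤ 1) :
    (c + Real.log (1 / η)) * k + 2 < ((2 * k + 1 : ℕ) : ℝ) := by
  have h1 := log_aux hη
  have h3 : (4 : ℝ) ≤ k := by exact_mod_cast hk
  have h4 : (c + Real.log (1 / η)) * k ≤ 17 / 10 * k :=
    mul_le_mul_of_nonneg_right (by linarith) (by linarith)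
  push_cast
  linarith

/-- **Sums of `2 k + 1` terms, a sparse set of the powers being moved.** -/
theorem result (k : ℕ) (hk : 4 ≤ k) (hk2 : ∀ a, k ≠ 2 ^ a) (q : ℕ) (hq : 1 ≤ q) (η δ : ℝ) (hη : 1 / 2 ≤ η)
    (hη1 : η < 1) (hδ0 : 0 < δ) (hδ1 : δ ≤ 1) :
    -- almost surely all large integers are sums of `2 * k + 1` terms
    (∀ (κ : ℝ) (M : Set ℕ), η ≤ κ → Thick q κ M → ∀ (Ω : Type) [MeasurableSpace Ω]
      (μ : Measure Ω) [IsProbabilityMeasure μ] (a : ℕ → Ω → ℕ), MovedOn k q η δ M μ a →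
        ∀ᵐ ω ∂μ, Suffices (fun x => a x ω) (2 * k + 1)) ∧
    -- such random sequences exist for every `M`, and `M` can be sparse
    (∀ M : Set ℕ, ∃ (Ω : Type) (_ : MeasurableSpace Ω) (μ : Measure Ω)
      (_ : IsProbabilityMeasure μ) (a : ℕ → Ω → ℕ), MovedOn k q η δ M μ a) ∧
    (∀ s : ℕ, 1 ≤ s → ∀ κ : ℝ, κ < 1 / s → Thick q κ (MS q s)) ∧
    -- the deterministic corollary
    (∀ s : ℕ, 1 ≤ s → η * s ≤ 1 → ∃ b : ℕ → ℕ,
      (∀ x : ℕ, ∃ j : ℕ, (j : ℝ) ≤ ((x : ℝ) ^ k) ^ η ∧ b x = x ^ k + q * j) ∧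
      (∀ X : ℕ, 1 ≤ X → (((Finset.range X).filter fun x => b x ≠ x ^ k).card : ℝ) ≤
        2 * q * (X : ℝ) ^ (1 / (s : ℝ))) ∧
      Suffices b (2 * k + 1)) := by
  have hη0 : 0 < η := lt_of_lt_of_le (by norm_num) hη
  have hk1 : 1 ≤ k := by omega
  have hloc : R500.WB.Loc k (2 * k + 1) q := R500.WB.Loc.two hk1 (fun a _ => hk2 a) hq
  refine ⟨?_, fun M => R500.WC.exists_movedOn k η hq hδ1 M,
    fun s hs κ hκ => R500.WC.MS_thick hq hs hκ, ?_⟩
  · intro κ M hκ hTh Ω _ μ _ a ha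
    have hκ0 : 0 < κ := hη0.trans_le hκ
    have hc : η / κ ≤ 1 := by rw [div_le_one hκ0]; exact hκ
    filter_upwards [ha.ae hq hk1 hη0 hη1 hκ0 hTh (terms_aux hk hη hc) hδ0 hδ1] with ω hω
    filter_upwards [hω] with n hn
    exact hn (hloc n)
  · intro s hs hηs
    obtain ⟨b, h1, h2, h3⟩ := R500.WC.detOn (k := k) (q := q) hq hk1 hη0 hη1 hs
    refine ⟨b, h1, fun X hX => ?_, ?_⟩
    · convert h2 X hX
    · filter_upwards [h3 _ (terms_aux hk hη hηs)] with n hn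
      exact hn (hloc n)

end Pool.Agent.Results.MP_efcac8_nt.SparseMoves
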